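import Pool.Agent.Q94.CL.Fin

/-!
# Derived invariance of Hodge numbers when the canonical class has Lefschetz properties

The set-up is that of the starting result `MP_b4fe5e_ag.HodgeInertia`: `X` and `Y` are smooth
projective complex varieties of dimension `n`, given by their cohomology (`KRing`), and the
equivalence `D(X) ≃ D(Y)` is given by the induced isomorphism `Φ` of the cohomology (`FM`).
In addition we use that equivalences commute with the Serre functors `· ⊗ ω[n]`, so that `Φ`
intertwines the multiplications by `exp(c₁)`, and hence by `c₁`. This is the hypothesis `hΦ`.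

Let `R_i` be the sum of the `H^{p,q}` with `p - q = i`. The rank of every power of `c₁` on `R_i` is a
derived invariant. If the maps

  `c₁ ^ (n - a - b) : H^{a,b} → H^{n-b,n-a}`, `(a, b) = (p, q), (p - 1, q - 1), …`,

are injective for `X` and for `Y` (`LefAt X p q`; a generic condition, as the two spaces have the same
dimension), these ranks determine the numbers `h^{a,b}`. Together with the relations of
`HodgeInertia` it suffices to know this in the degrees at most `n - 3`.
-/

set_option autoImplicit false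

namespace Pool.Agent.Results.MP_b4fe5e_ag.CanonicalLefschetz

open Module Pool.Agent.W539.DI Pool.Agent.Q94.CL

/-- The transform commutes with the multiplication by `c₁`. -/
def Canonical {n : ℕ} {X Y : KRing n} (Φ : FM X Y) : Prop := ∀ x, Φ.φ (X.c * x) = Y.c * Φ.φ x

/-- The multiplication by `c₁ ^ k` is injective on `H^{p,q}`. -/
def Inj {n : ℕ} (X : KRing n) (k : ℕ) (p q : ℤ) : Prop :=
  ∀ x ∈ X.H (p, q), X.c ^ k * x = 0 → x = 0

/-- The ranks of the powers of `c₁` on the spaces `⊕_{p-q=i} H^{p,q}` agree. -/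
def SameRanks {n : ℕ} (X Y : KRing n) : Prop := ∀ (p q : ℤ) (s : ℕ),
  finrank ℂ (Submodule.map (cp X s) (col X p q)) = finrank ℂ (Submodule.map (cp Y s) (col Y p q))

/-- All Hodge numbers agree. -/
def SameHodge {n : ℕ} (X Y : KRing n) : Prop := ∀ p q : ℤ, X.h p q = Y.h p q

/-- A fivefold with `c₁ ^ 5 ≠ 0` for which `c₁ ^ 3` is injective on `H^{1,1}` and on `H^{2,0}`. -/
def FiveLef (X : KRing 5) : Prop := X.c ^ 5 ≠ 0 ∧ Inj X 3 1 1 ∧ Inj X 3 2 0

/-- Let `X`, `Y` be smooth projective of dimension `n` with equivalent derived categories.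

1. The ranks of the powers of `c₁` on the spaces `⊕_{p-q=i} H^{p,q}` agree.
2. `h^{p,q}(X) = h^{p,q}(Y)`, `p + q ≤ n`, if all `c₁ ^ (n-p-q+2j) : H^{p-j,q-j} → H^{n-q+j,n-p+j}`,
   `j ≥ 0`, are injective for `X` and `Y`.
3. `h^{0,q}(X) = h^{0,q}(Y)` if `c₁ ^ (n-q) : H^{0,q} → H^{n-q,n}` is injective for `X` and `Y`.
4. If `c₁ ^ (n-i) : H^i → H^{2n-i}` is injective for `X` and `Y` for all `i ≤ n - 4`, then
   `h^{p,q}(X) = h^{p,q}(Y)` for all `p + q ≡ n` modulo two.
5. If this holds for all `i ≤ n - 3`, then `h^{p,q}(X) = h^{p,q}(Y)` for all `p`, `q`.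
6. (No condition on `c₁`.) If `h^{p,q}(X) = h^{p,q}(Y)` for all `p + q ≤ n - 3`, then this holds for
   all `p`, `q`.
7. For fivefolds with `h^{1,0}(X) = h^{1,0}(Y)` all Hodge numbers agree if, for `X` and `Y`,
   `c₁ ^ 5 ≠ 0` and `c₁ ^ 3` is injective on `H^{1,1}` and on `H^{2,0}`. -/
theorem result :
    (∀ (n : ℕ) (X Y : KRing n) (Φ : FM X Y), Canonical Φ →
      SameRanks X Y ∧
      (∀ p q : ℤ, p + q ≤ n → LefAt X p q → LefAt Y p q → X.h p q = Y.h p q) ∧
      (∀ q : ℕ, q ≤ n → Inj X (n - q) 0 q → Inj Y (n - q) 0 q → X.h 0 q = Y.h 0 q) ∧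
      (LefUpTo X (n - 4) → LefUpTo Y (n - 4) → ∀ p q : ℤ, Even (p + q - n) →
        X.h p q = Y.h p q) ∧
      (LefUpTo X (n - 3) → LefUpTo Y (n - 3) → SameHodge X Y)) ∧
    (∀ (n : ℕ) (X Y : KRing n), Nonempty (FM X Y) →
      (∀ p q : ℤ, p + q ≤ n - 3 → X.h p q = Y.h p q) → SameHodge X Y) ∧
    (∀ (X Y : KRing 5) (Φ : FM X Y), Canonical Φ → X.h 1 0 = Y.h 1 0 → FiveLef X → FiveLef Y →
      SameHodge X Y) := by
  refine ⟨fun n X Y Φ hΦ => ⟨fun p q s => rank_eq Φ hΦ p q s,
    fun p q h hX hY => h_eq Φ hΦ (p.toNat + 1) p q (by omega) h hX hY,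
    fun q hq hX hY => edge Φ hΦ hq hX hY, fun hX hY => parity Φ hΦ hX hY,
    fun hX hY => all Φ hΦ hX hY⟩, fun n X Y ⟨Φ⟩ h => all_of Φ h, ?_⟩
  intro X Y Φ hΦ h10 ⟨hX0, hX1, hX2⟩ ⟨hY0, hY1, hY2⟩
  have key : ∀ Z : KRing 5, Z.c ^ 5 ≠ 0 → (∀ x ∈ Z.H (1, 1), Z.c ^ 3 * x = 0 → x = 0) →
      (∀ x ∈ Z.H (2, 0), Z.c ^ 3 * x = 0 → x = 0) → LefAt Z 1 1 ∧ LefAt Z 2 0 := by
    intro Z h0 h1 h2
    constructor
    · intro j k hk x hx hx0
      rcases Nat.lt_or_ge j 2 with hj | hj
      · interval_cases j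
        · have : k = 3 := by push_cast at hk; omega
          subst this
          simp only [Nat.cast_zero, sub_zero] at hx
          exact h1 x hx hx0
        · have : k = 5 := by push_cast at hk; omega
          subst this
          simp only [Nat.cast_one, sub_self] at hx
          have h4 := (finrank_eq_one_iff_of_nonzero' (⟨1, Z.one_mem⟩ : Z.H (0, 0))
            (by
              intro h
              have h' : (1 : Z.R) = 0 := congrArg Subtype.val h
              apply h0
              rw [← one_mul (Z.c ^ 5), h', zero_mul])).1 Z.conn ⟨x, hx⟩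
          obtain ⟨a, ha⟩ := h4
          have ha' : a • (1 : Z.R) = x := congrArg Subtype.val ha
          rw [← ha', mul_smul_comm, mul_one] at hx0
          rcases smul_eq_zero.1 hx0 with h5 | h5
          · rw [← ha', h5, zero_smul]
          · exact absurd h5 h0
      · rw [Z.van _ _ (Or.inl (by omega))] at hx
        exact (Submodule.mem_bot ℂ).1 hx
    · intro j k hk x hx hx0
      rcases Nat.eq_zero_or_pos j with rfl | hj
      · have : k = 3 := by push_cast at hk; omega
        subst this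
        simp only [Nat.cast_zero, sub_zero] at hx
        exact h2 x hx hx0
      · rw [Z.van _ _ (Or.inr (by omega))] at hx
        exact (Submodule.mem_bot ℂ).1 hx
  exact five Φ hΦ h10 (key X hX0 hX1 hX2).1 (key Y hY0 hY1 hY2).1 (key X hX0 hX1 hX2).2
    (key Y hY0 hY1 hY2).2

end Pool.Agent.Results.MP_b4fe5e_ag.CanonicalLefschetz
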