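import Pool.Agent.Q148.HN.Var

/-!
# Derived invariance of Hodge numbers: the middle Hodge number suffices

`V` is the commutative monoid of the isomorphism classes of smooth projective complex varieties (product of
varieties), `D.hodge X` the Hodge polynomial `∑ h^{p,q}(X) x^p y^q`, `D.deq` derived equivalence. `IsHodge`
are the standard properties: the Künneth formula, Hodge symmetry, Serre duality, and for derived equivalent
`X, Y` also `X × Z` and `Y × Z` are derived equivalent, `dim X = dim Y`, and the sums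
`∑_{p - q = i} h^{p,q}` agree (Orlov: equivalences are Fourier–Mukai transforms; Hochschild homology). `line`, `ell`, `plane`, `k3` are `ℙ¹`, an elliptic curve, `ℙ²`, a K3 surface,
and `cy` is a Calabi–Yau threefold with `h¹¹ = α ≠ β = h²¹`, for example a quintic with `α = 1` and
`β = 101`.

**Theorem.** (1) Let `𝒞` be a class of varieties that is stable under products with `ℙ¹`, elliptic curves
and `ℙ²` (for example all varieties), and `m` a number such that `h^{m,m}(X) = h^{m,m}(Y)` for all
derived equivalent `X, Y` of dimension `2 m`, `X` in `𝒞`. Then `h^{p,q}(X) = h^{p,q}(Y)` for all derived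
equivalent `X, Y`, `X` in `𝒞`, of any dimension `n` and all `p, q` with `n - m ≤ p, q ≤ m`, and for all
`p, q` if `n ≤ m + 1`. The same is true for congruences modulo an odd number `N`.

(2) So for such a class the following are equivalent: all Hodge numbers are derived invariants (for the
class of all varieties this is Q1); for all `m` the middle Hodge number `h^{m,m}` of `2 m`-dimensional
varieties is a derived invariant; this is true for infinitely many `m`.

(3) Let `𝒞` be a class that is stable under products with `ell`, `k3` and `cy` (for example all varieties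
with trivial canonical bundle). All Hodge numbers of varieties in `𝒞` are derived invariants if and only if
for all `m` the middle Hodge number of the `2 m`-dimensional varieties in `𝒞` is.
-/

set_option autoImplicit false

open Pool.Agent.Q148.HN

namespace Pool.Agent.Results.MP_b4fe5e_ag.MiddleHodgeNumber

/-- **The middle Hodge number suffices.** See the explanations above. -/
theorem result {V : Type} [CommMonoid V] {D : HodgeData V} (h : IsHodge D)
    {line ell plane k3 cy : V} {α β : ℤ} (hαβ : α ≠ β) (hl : Has D line 1 L) (he : Has D ell 1 Ell)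
    (hp : Has D plane 2 Pl) (hk : Has D k3 2 K3) (hc : Has D cy 3 (CY α β)) :
    (∀ 𝒞 : Set V, StableMul 𝒞 line → StableMul 𝒞 ell → StableMul 𝒞 plane →
      (∀ N : ℕ, (N = 0 ∨ Odd N) → ∀ m : ℕ, Mid D N 𝒞 m → ∀ X ∈ 𝒞, ∀ Y, D.deq X Y → ∀ p q : ℤ,
        (D.dim X - m ≤ p ∧ p ≤ m ∧ D.dim X - m ≤ q ∧ q ≤ m ∨ D.dim X ≤ m + 1) →
          D.h X p q ≡ D.h Y p q [ZMOD N]) ∧
      List.TFAE [All D 𝒞, ∀ m, Mid D 0 𝒞 m, {m | Mid D 0 𝒞 m}.Infinite]) ∧
    (∀ 𝒞 : Set V, StableMul 𝒞 ell → StableMul 𝒞 k3 → StableMul 𝒞 cy →
      (All D 𝒞 ↔ ∀ m, Mid D 0 𝒞 m)) := by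
  have h12 : ∀ 𝒞 : Set V, All D 𝒞 → ∀ m, Mid D 0 𝒞 m := by
    intro 𝒞 h1 m X hX Y hXY _
    rw [h1 X hX Y hXY]
  refine ⟨fun 𝒞 sl se sp => ⟨fun N hN m hm X hX Y hXY p q hpq => ?_, ?_⟩, fun 𝒞 se sk sc =>
    ⟨h12 𝒞, all_of_mid_trivial h hαβ he hk hc se sk sc⟩⟩
  · rcases hpq with ⟨a, b, c, d⟩ | hpq
    · exact range_of_mid h hN hl he hp sl se sp hm hX hXY p q a b c d
    · exact all_of_dim h hN hl he hp sl se sp hm hX hXY hpq p q
  tfae_have 1 → 2 := h12 𝒞
  tfae_have 2 → 3 := by
    intro h1
    have h2 : {m | Mid D 0 𝒞 m} = Set.univ := Set.eq_univ_of_forall h1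
    rw [h2]
    exact Set.infinite_univ
  tfae_have 3 → 1 := all_of_mid h hl he hp sl se sp
  tfae_finish

end Pool.Agent.Results.MP_b4fe5e_ag.MiddleHodgeNumber
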