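import Pool.Agent.Q94.DH.Edge

/-!
# Derived invariance of Hodge numbers: torsion canonical class, every dimension

The set-up is that of the starting result `MP_b4fe5e_ag.TorsionCanonicalFivefolds`: `X` and `Y` are
smooth projective complex varieties of dimension `n` whose canonical bundle `ω` is torsion, given by
their cohomology with values in `ℂ` (`base`) and in `ω` (`twist`), and `D(X) ≃ D(Y)` is given by the
induced isomorphisms `Φ₀`, `Φ₁` of these cohomologies, which preserve `p - q` and the Mukai pairing.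

In every dimension `n` the numbers `h^{0,q}` and `h^{q,0}` with `q = 0, 1, 2, n - 2, n - 1, n` are
derived invariants. (For varieties in general the problem file notes that even the numbers `h^{0,q}`,
`1 < q < n`, are not known to be invariant.) So are `h^{1,n-1}`, `h^{1,n-3}`, the sums
`h^{0,n-3} + h^{1,n-2}` and `h^{2,n-2} + 2 h^{0,n-4}`, and, for the twisted numbers,
`h^{0,3} + h^{n-2}(Ω^1 ⊗ ω)` and `2 h^{0,4} + h^{n-2}(Ω^2 ⊗ ω)`.
-/

set_option autoImplicit false

namespace Pool.Agent.Results.MP_b4fe5e_ag.TorsionCanonicalEveryDimension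

open Pool.Agent.TH125.Tw Pool.Agent.Q94.DH

/-- **Theorem.** -/
theorem result (n : ℕ) (hn : 2 ≤ n) (X Y : TorsionCanonical n) (Φ₀ : Transform X.base Y.base)
    (Φ₁ : Transform X.twist Y.twist) :
    (∀ q ∈ ({0, 1, 2, n - 2, n - 1, n} : Finset ℕ),
      X.base.hodgeNumber 0 q = Y.base.hodgeNumber 0 q ∧
        X.base.hodgeNumber q 0 = Y.base.hodgeNumber q 0) ∧
    X.base.hodgeNumber 1 (n - 1) = Y.base.hodgeNumber 1 (n - 1) ∧
    (3 ≤ n →
      X.base.hodgeNumber 0 (n - 3) + X.base.hodgeNumber 1 (n - 2) =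
        Y.base.hodgeNumber 0 (n - 3) + Y.base.hodgeNumber 1 (n - 2) ∧
      X.base.hodgeNumber 0 3 + X.twist.hodgeNumber 1 (n - 2) =
        Y.base.hodgeNumber 0 3 + Y.twist.hodgeNumber 1 (n - 2)) ∧
    (4 ≤ n →
      X.base.hodgeNumber 1 (n - 3) = Y.base.hodgeNumber 1 (n - 3) ∧
      X.base.hodgeNumber 2 (n - 2) + 2 * X.base.hodgeNumber 0 (n - 4) =
        Y.base.hodgeNumber 2 (n - 2) + 2 * Y.base.hodgeNumber 0 (n - 4) ∧
      X.twist.hodgeNumber 1 (n - 3) = Y.twist.hodgeNumber 1 (n - 3) ∧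
      X.twist.hodgeNumber 2 (n - 2) + 2 * X.base.hodgeNumber 0 4 =
        Y.twist.hodgeNumber 2 (n - 2) + 2 * Y.base.hodgeNumber 0 4) := by
  have hc : ∀ (Z : TorsionCanonical n) (k : ℕ), k ≤ n →
      Z.twist.hodgeNumber 0 (n - k) = Z.base.hodgeNumber 0 k := by
    intro Z k hk
    rw [Z.canonical, Z.symmetry n]
    exact Z.base.dim_eq (by omega) (by omega)
  refine ⟨?_, (edge_two Φ₀ hn).2, ?_, ?_⟩
  · intro q hq
    have key : X.base.hodgeNumber 0 q = Y.base.hodgeNumber 0 q := by
      simp only [Finset.mem_insert, Finset.mem_singleton] at hq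
      rcases hq with h | h | h | h | h | h
      · rw [h, X.connected, Y.connected]
      · rw [h]; exact TorsionCanonical.hodge_one Φ₁ (by omega)
      · rw [h]; exact TorsionCanonical.hodge_two Φ₁ hn
      · rw [h]; exact (edge_two Φ₀ hn).1
      · rw [h]; exact edge_one Φ₀ (by omega)
      · rw [h]; exact edge_zero Φ₀
    exact ⟨key, by rw [X.symmetry q 0, Y.symmetry q 0, key]⟩
  · intro h3
    refine ⟨edge_three Φ₀ h3, ?_⟩
    have h := edge_three Φ₁ h3
    rw [hc X 3 h3, hc Y 3 h3] at h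
    exact h
  · intro h4
    refine ⟨(edge_four Φ₀ h4).1, (edge_four Φ₀ h4).2, (edge_four Φ₁ h4).1, ?_⟩
    have h := (edge_four Φ₁ h4).2
    rw [hc X 4 h4, hc Y 4 h4] at h
    exact h

end Pool.Agent.Results.MP_b4fe5e_ag.TorsionCanonicalEveryDimension
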