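import Pool.Agent.Q94.DH.Six

/-!
# Derived invariance of Hodge numbers: sixfolds with torsion canonical class

Let `X` and `Y` be smooth projective complex varieties of dimension `6` with `c₁ = 0` in
`H²(·, ℚ)` and `D(X) ≃ D(Y)`, given through the same data as in the starting result
`MP_b4fe5e_ag.TorsionCanonicalFivefolds`: the cohomology of `X` with values in `ℂ` (`base`) and in
the torsion line bundle `ω` (`twist`), with Poincare duality, the hard Lefschetz theorem and the
Hodge-Riemann relations, the isomorphisms given by the derived equivalence (`Transform`: they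
preserve `p - q` and the Mukai pairing) and the formula of Libgober and Wood.

* All Hodge numbers agree, except possibly those of the types `h^{1,1}`, `h^{3,3}`, `h^{3,0}`,
  `h^{4,1}`, `h^{2,1}`, `h^{3,2}` (and their images under the symmetries).
* The sums `h^{3,0} + h^{4,1}`, `h^{2,1} + h^{3,2}`, `h^{3,3} + 2 h^{1,1}` agree, and so does
  `h^{1,1} - h^{3,0} - h^{2,1}`.
* So all Hodge numbers agree as soon as `h^{3,0}` and `h^{2,1}` do.
* The Betti numbers change by `b_k(X) - b_k(Y) = c_k (h^{1,1}(X) - h^{1,1}(Y))` with the constants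
  `c = 0, 0, 1, 2, 0, -2, -2, -2, 0, 2, 1, 0, 0`; so `b_0, b_1, b_4` are derived invariants and all
  Betti numbers agree as soon as the third (or the second) Betti numbers agree.
-/

set_option autoImplicit false

namespace Pool.Agent.Results.MP_b4fe5e_ag.TorsionCanonicalSixfolds

open Pool.Agent.TH125.Tw Pool.Agent.Q94.DH

/-- **Theorem.** -/
theorem result (X Y : TorsionCanonical 6) (hX : LibgoberWood X.base) (hY : LibgoberWood Y.base)
    (Φ₀ : Transform X.base Y.base) (Φ₁ : Transform X.twist Y.twist) :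
    (∀ p q : ℕ, (p, q) ∉ openTypes → X.base.hodgeNumber p q = Y.base.hodgeNumber p q) ∧
    X.base.hodgeNumber 3 0 + X.base.hodgeNumber 4 1 =
      Y.base.hodgeNumber 3 0 + Y.base.hodgeNumber 4 1 ∧
    X.base.hodgeNumber 2 1 + X.base.hodgeNumber 3 2 =
      Y.base.hodgeNumber 2 1 + Y.base.hodgeNumber 3 2 ∧
    X.base.hodgeNumber 3 3 + 2 * X.base.hodgeNumber 1 1 =
      Y.base.hodgeNumber 3 3 + 2 * Y.base.hodgeNumber 1 1 ∧
    (X.base.hodgeNumber 1 1 : ℤ) - Y.base.hodgeNumber 1 1 =
      ((X.base.hodgeNumber 3 0 : ℤ) - Y.base.hodgeNumber 3 0) +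
        ((X.base.hodgeNumber 2 1 : ℤ) - Y.base.hodgeNumber 2 1) ∧
    (X.base.hodgeNumber 3 0 = Y.base.hodgeNumber 3 0 →
      X.base.hodgeNumber 2 1 = Y.base.hodgeNumber 2 1 →
      ∀ p q : ℕ, X.base.hodgeNumber p q = Y.base.hodgeNumber p q) ∧
    (∀ k : ℕ, (betti X.base k : ℤ) - betti Y.base k =
      coeff k * ((X.base.hodgeNumber 1 1 : ℤ) - Y.base.hodgeNumber 1 1)) ∧
    (betti X.base 3 = betti Y.base 3 → ∀ k : ℕ, betti X.base k = betti Y.base k) := by
  obtain ⟨⟨h10, h20, h40, h50, h60, h31, h51, h22, h42⟩, k30, k21, k33, k11⟩ :=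
    six_core hX hY Φ₀ Φ₁
  have h00 : X.base.hodgeNumber 0 0 = Y.base.hodgeNumber 0 0 := by
    rw [X.connected, Y.connected]
  have t := six_types X.base.hodgeNumber Y.base.hodgeNumber X.symmetry Y.symmetry
    (fun p q hp hq => X.base.dim_eq (by omega) (by omega))
    (fun p q hp hq => Y.base.dim_eq (by omega) (by omega))
    (fun p q h => X.base.hodge_large h) (fun p q h => Y.base.hodge_large h)
    h00 h10 h20 h40 h50 h60 h31 h51 h22 h42 k30 k21 k33 k11
  have b := six_betti X.base.hodgeNumber Y.base.hodgeNumber X.symmetry Y.symmetry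
    (fun p q hp hq => X.base.dim_eq (by omega) (by omega))
    (fun p q hp hq => Y.base.dim_eq (by omega) (by omega))
    (fun p q h => X.base.hodge_large h) (fun p q h => Y.base.hodge_large h)
    h00 h10 h20 h40 h50 h60 h31 h51 h22 h42 k30 k21 k33 k11
  have b' : ∀ k : ℕ, (betti X.base k : ℤ) - betti Y.base k =
      coeff k * ((X.base.hodgeNumber 1 1 : ℤ) - Y.base.hodgeNumber 1 1) := b
  refine ⟨t.1, k30, k21, k33, k11, t.2, b', ?_⟩
  intro h3 k
  have b3 := b' 3
  rw [h3, sub_self] at b3
  have e : coeff 3 = 2 := rfl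
  rw [e] at b3
  have bk := b' k
  have e0 : (X.base.hodgeNumber 1 1 : ℤ) - Y.base.hodgeNumber 1 1 = 0 := by omega
  rw [e0, mul_zero] at bk
  omega

end Pool.Agent.Results.MP_b4fe5e_ag.TorsionCanonicalSixfolds
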